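import Pool.Agent.Q176.AX.Dini

/-!
# Axisymmetric Navier-Stokes flows with swirl: inflow of critical strength

The inflow `u_ρ = -2 ν / ρ` is critical: it corresponds to dimension two for the diffusion of the
circulation, whose axis is then invisible. The theorem says that the circulation vanishes at the
axis, uniformly up to the (possible blow-up) time `T`, with a rate, if the inflow is below the
critical one by an amount which satisfies a condition of Dini type (Feller's test); e.g. by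
`2 ν (1 + κ) / (ρ log (1 / ρ ^ 2))`, and then `|Γ| ≤ A / log (1 / ρ) ^ κ`. The condition is needed
only at the points where the circulation is maximal on its cylinder `ρ = const`, and an additional
inflow `B(t) ρ log (1 / ρ)` with integrable `B` is allowed.

`V = Fin 3 → ℝ` with the maximum norm. See the claim file for the definitions.
-/

open MeasureTheory Set Metric

namespace Pool.Agent.Results.MP_09540e_an.CriticalInflow

open H459R3.NS W221.NS Pool.Agent.TH305.AX Pool.Agent.Q176.AX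

/-- Let `(u, p)` be a smooth axisymmetric solution of the Navier-Stokes equations on
`[0, T) × ℝ³`, `u` tending to zero at infinity, uniformly on `[0, T'] × ℝ³` for each `T' < T`. Let
`Γ = circ (u t)` be the circulation, `σ = sg x` the square of the distance to the axis, and let
`|Γ| ≤ M` at time `0`. Let `S > 0`, let `B ≥ 0` be continuous on `[0, T)` with `∫_0^t B ≤ b` for
`t < T`. Call a point relevant at time `t` if `0 < σ < S` and `|Γ|` is maximal on the cylinder of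
the points with the same distance to the axis.

1. Let `κ > 0` and `L(σ) = 1 + log (S / σ)`. If
`ρ u_ρ ≥ -2 ν (1 - (κ + 1) / L(σ)) - B(t) σ L(σ)` at all relevant points with
`|Γ| > K / L(σ) ^ κ`, then `|Γ| ≤ A / L(σ) ^ κ` on `[0, T)` for `0 < σ ≤ S`, with some `A`.

2. Let `θ` be continuous on `(0, S]` with `θ ≤ θ₀ < 1/2`, `Θ(σ) = exp (- ∫_σ^S θ(r) / r dr)`, let
`Θ(s) / s` be integrable on `(0, S]` and `Ψ(σ) = ∫_0^σ Θ(s) / s ds`. If
`ρ u_ρ ≥ -2 ν (1 - θ(σ)) - B(t) σ Ψ(σ) / Θ(σ)` at all relevant points with `|Γ| > K Ψ(σ)`, then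
`|Γ| ≤ A Ψ(σ)` on `[0, T)` for `0 < σ ≤ S`, with some `A`. -/
theorem result (ν : ℝ) (hν : 0 < ν) (T : ℝ) (u : ℝ → V → V) (p : ℝ → V → ℝ)
    (h : AxSol ν T u p) (M S K b : ℝ) (B : ℝ → ℝ) (hS : 0 < S)
    (hM : ∀ x, |circ (u 0) x| ≤ M) (hB : ContinuousOn B (Ico 0 T))
    (hB0 : ∀ t ∈ Ico 0 T, 0 ≤ B t) (hBi : ∀ t ∈ Ico 0 T, ∫ r in (0 : ℝ)..t, B r ≤ b) :
    (∀ κ : ℝ, 0 < κ →
      (∀ t ∈ Ioo 0 T, ∀ x, 0 < sg x → sg x < S → K * Lg S (sg x) ^ (-κ) < |circ (u t) x| →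
        (∀ y, sg y = sg x → |circ (u t) y| ≤ |circ (u t) x|) →
        -(2 * ν * (1 - (κ + 1) / Lg S (sg x))) - B t * (sg x * Lg S (sg x))
          ≤ x 0 * u t x 0 + x 1 * u t x 1) →
      ∃ A : ℝ, ∀ t ∈ Ico 0 T, ∀ x, 0 < sg x → sg x ≤ S →
        |circ (u t) x| ≤ A * Lg S (sg x) ^ (-κ)) ∧
    ∀ (θ₀ : ℝ) (θ : ℝ → ℝ), θ₀ < 1 / 2 → ContinuousOn θ (Ioc 0 S) →
      (∀ σ ∈ Ioc 0 S, θ σ ≤ θ₀) → IntegrableOn (fun s => Th S θ s / s) (Ioc 0 S) →
      (∀ t ∈ Ioo 0 T, ∀ x, 0 < sg x → sg x < S → K * Ps S θ (sg x) < |circ (u t) x| →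
        (∀ y, sg y = sg x → |circ (u t) y| ≤ |circ (u t) x|) →
        -(2 * ν * (1 - θ (sg x))) - B t * (sg x * Ps S θ (sg x) / Th S θ (sg x))
          ≤ x 0 * u t x 0 + x 1 * u t x 1) →
      ∃ A : ℝ, ∀ t ∈ Ico 0 T, ∀ x, 0 < sg x → sg x ≤ S →
        |circ (u t) x| ≤ A * Ps S θ (sg x) := by
  rcases le_or_gt T 0 with hT | hT
  · exact ⟨fun κ _ _ => ⟨0, fun t ht => absurd (ht.1.trans_lt ht.2) (not_lt.2 hT)⟩,
      fun θ₀ θ _ _ _ _ _ => ⟨0, fun t ht => absurd (ht.1.trans_lt ht.2) (not_lt.2 hT)⟩⟩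
  refine ⟨fun κ hκ hc => ?_, fun θ₀ θ hθ₀ hθ hle hint hc => ?_⟩
  · have hlp : ∀ σ ∈ Ioc 0 S, ∀ a : ℝ, 0 < Lg S σ ^ a := fun σ hσ a =>
      Real.rpow_pos_of_pos (by linarith [lg_one hσ]) _
    refine gen hν hT h hS (ψ := fun s => Lg S s ^ (-κ)) (ψ₁ := fun s => κ * Lg S s ^ (-κ - 1) / s)
      (θ := fun s => (κ + 1) / Lg S s) (B := fun t => κ * B t) (b := κ * b) (K := K)
      (fun σ hσ => hlp σ hσ _)
      (fun σ hσ => (lp_hd hS κ hσ).continuousAt.continuousWithinAt)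
      (cd2 isOpen_Ioo (fun σ hσ => lp_hd hS κ ⟨hσ.1, hσ.2.le⟩)
        (fun σ hσ => lq_hd hS ⟨hσ.1, hσ.2.le⟩) ?_)
      (fun σ hσ => lp_hd hS κ ⟨hσ.1, hσ.2.le⟩)
      (fun σ hσ => div_pos (mul_pos hκ (hlp σ ⟨hσ.1, hσ.2.le⟩ _)) hσ.1)
      (fun σ hσ => lq_hd hS ⟨hσ.1, hσ.2.le⟩)
      (lg_axis hS hκ) hM (hB.const_smul κ) (fun t ht => mul_nonneg hκ.le (hB0 t ht))
      (fun t ht => ?_) (fun t ht x hx hxS hK htop => ?_)
    · have hL : ContinuousOn (Lg S) (Ioo 0 S) := fun σ hσ =>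
        (lg_hd hS hσ.1).continuousAt.continuousWithinAt
      have hL0 : ∀ σ ∈ Ioo 0 S, Lg S σ ≠ 0 := fun σ hσ => by
        linarith [lg_one (S := S) ⟨hσ.1, hσ.2.le⟩]
      have hid : ∀ σ ∈ Ioo 0 S, (id σ : ℝ) ≠ 0 := fun σ hσ => hσ.1.ne'
      have h1 : ContinuousOn (fun σ => (κ + 1) / Lg S σ - 1) (Ioo 0 S) :=
        (continuousOn_const.div hL hL0).sub continuousOn_const
      have h2 : ContinuousOn (fun σ => κ * Lg S σ ^ (-κ - 1) / σ) (Ioo 0 S) :=
        (continuousOn_const.mul (hL.rpow_const fun σ hσ => Or.inl (hL0 σ hσ))).div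
          continuousOn_id hid
      exact (h1.mul h2).div continuousOn_id hid
    · have h2 : ∫ r in (0 : ℝ)..t, κ * B r = κ * ∫ r in (0 : ℝ)..t, B r :=
        intervalIntegral.integral_const_mul _ _
      rw [h2]
      exact mul_le_mul_of_nonneg_left (hBi t ht) hκ.le
    · have h1 := hc t ht x hx hxS hK htop
      have h2 := lg_one (S := S) (σ := sg x) ⟨hx, hxS.le⟩
      have h3 : κ * B t * (Lg S (sg x) ^ (-κ) / (κ * Lg S (sg x) ^ (-κ - 1) / sg x))
          = B t * (sg x * Lg S (sg x)) := by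
        have h4 : Lg S (sg x) ^ (-κ - 1) = Lg S (sg x) ^ (-κ) / Lg S (sg x) := by
          rw [Real.rpow_sub_one (by linarith)]
        have h5 : 0 < Lg S (sg x) ^ (-κ) := hlp _ ⟨hx, hxS.le⟩ _
        have h6 : Lg S (sg x) ≠ 0 := by linarith
        rw [h4]
        field_simp
      show -(2 * ν * (1 - (κ + 1) / Lg S (sg x)))
        - κ * B t * (Lg S (sg x) ^ (-κ) / (κ * Lg S (sg x) ^ (-κ - 1) / sg x)) ≤ _
      rw [h3]
      exact h1
  · have hmm : max θ₀ 0 < 1 / 2 := max_lt hθ₀ (by norm_num)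
    have hle' : ∀ σ ∈ Ioc 0 S, θ σ ≤ max θ₀ 0 := fun σ hσ => (hle σ hσ).trans (le_max_left _ _)
    have hps : ∀ σ ∈ Ioc 0 S, 0 < Ps S θ σ := fun σ hσ => by
      have h1 := ps_pos hθ hint hle' (le_max_right _ _) hσ
      have h2 : 0 < σ / (2 * S) := div_pos hσ.1 (by linarith)
      have h3 := Real.rpow_pos_of_pos h2 (max θ₀ 0)
      linarith
    refine gen hν hT h hS (ψ := Ps S θ) (ψ₁ := fun s => Th S θ s / s) (θ := θ) (B := B) (b := b)
      (K := K) hps (ps_cont hS hint)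
      (cd2 isOpen_Ioo (fun σ hσ => ps_hd hθ hint hσ) (fun σ hσ => q_hd hθ hσ) ?_)
      (fun σ hσ => ps_hd hθ hint hσ) (fun σ hσ => div_pos (th_pos σ) hσ.1)
      (fun σ hσ => q_hd hθ hσ)
      (ps_axis hS hθ hint hle' (le_max_right _ _) hmm) hM hB hB0 hBi
      (fun t ht x hx hxS hK htop => ?_)
    · have hid : ∀ σ ∈ Ioo 0 S, (id σ : ℝ) ≠ 0 := fun σ hσ => hσ.1.ne'
      have h1 : ContinuousOn (fun σ => θ σ - 1) (Ioo 0 S) :=
        (hθ.mono Ioo_subset_Ioc_self).sub continuousOn_const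
      have h2 : ContinuousOn (fun σ => Th S θ σ / σ) (Ioo 0 S) := fun σ hσ =>
        (q_hd hθ hσ).continuousAt.continuousWithinAt
      exact (h1.mul h2).div continuousOn_id hid
    · have h1 := hc t ht x hx hxS hK htop
      have h3 : Ps S θ (sg x) / (Th S θ (sg x) / sg x) = sg x * Ps S θ (sg x) / Th S θ (sg x) := by
        have := (th_pos (S := S) (θ := θ) (sg x)).ne'
        field_simp
      show -(2 * ν * (1 - θ (sg x))) - B t * (Ps S θ (sg x) / (Th S θ (sg x) / sg x)) ≤ _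
      rw [h3]
      exact h1

end Pool.Agent.Results.MP_09540e_an.CriticalInflow
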