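import Pool.Agent.TH305.AX.Bar5

/-!
# Axisymmetric Navier-Stokes flows with swirl: one-sided inflow of type I

Near the axis, and only at the points of maximal circulation on each cylinder `ρ = const`, the
inflow `-u_ρ` is allowed to be as large as `(2 - μ) ν / ρ + C / √(T - t) + B(t) ρ`, with an
arbitrary constant `C` and an integrable `B`; nothing is assumed about the outflow, about `u_z`,
about `u_θ`, or at points where the circulation is at most `K ρ ^ (2 β)`. Then the circulation is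
Hoelder continuous at the axis, uniformly up to the (possible blow-up) time `T`.

`V = Fin 3 → ℝ` with the maximum norm. See the claim file for the definitions.
-/

open MeasureTheory Set Metric

namespace Pool.Agent.Results.MP_09540e_an.TypeIInflow

open H459R3.NS W221.NS Pool.Agent.TH305.AX

/-- Let `Γ = circ (u t)` be the circulation, `σ = sg x` the square of the distance to the axis.

For all `ν, μ, β > 0` and `C ≥ 0` there is an exponent `γ > 0` with the following property. Let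
`(u, p)` be a smooth axisymmetric solution of the Navier-Stokes equations on `[0, T) × ℝ³`, `u`
tending to zero at infinity, uniformly on `[0, T'] × ℝ³` for each `T' < T`, and let `|Γ| ≤ M` at
time `0`. Let `S > 0`, `K ≥ 0`, let `B ≥ 0` be continuous on `[0, T)` with `∫_0^t B ≤ b` for
`t < T`, and suppose that
`ρ u_ρ ≥ -(2 - μ) ν - C ρ / √(T - t) - B(t) ρ ^ 2`
at all points with `0 < ρ ^ 2 < S` at which `|Γ| > K ρ ^ (2 β)` and `|Γ|` is maximal on the
cylinder of the points with the same distance to the axis. Then there is a number `A` with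
`|Γ(t, x)| ≤ A (ρ ^ 2) ^ γ` for all `t ∈ [0, T)` and all `x` with `ρ ^ 2 ≤ S`. -/
theorem result (ν μ β C : ℝ) (hν : 0 < ν) (hμ : 0 < μ) (hβ : 0 < β) (hC : 0 ≤ C) :
    ∃ γ : ℝ, 0 < γ ∧
      ∀ (T : ℝ) (u : ℝ → V → V) (p : ℝ → V → ℝ), AxSol ν T u p →
      ∀ (M S K b : ℝ) (B : ℝ → ℝ), 0 < S → (∀ x, |circ (u 0) x| ≤ M) →
        ContinuousOn B (Ico 0 T) → (∀ t ∈ Ico 0 T, 0 ≤ B t) →
        (∀ t ∈ Ico 0 T, ∫ r in (0 : ℝ)..t, B r ≤ b) →
        (∀ t ∈ Ioo 0 T, ∀ x, 0 < sg x → sg x < S → K * sg x ^ β < |circ (u t) x| →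
          (∀ y, sg y = sg x → |circ (u t) y| ≤ |circ (u t) x|) →
          -((2 - μ) * ν) - C * √(sg x) / √(T - t) - B t * sg x
            ≤ x 0 * u t x 0 + x 1 * u t x 1) →
        ∃ A : ℝ, ∀ t ∈ Ico 0 T, ∀ x, sg x ≤ S → |circ (u t) x| ≤ A * sg x ^ γ := by
  obtain ⟨α, hαe⟩ : ∃ α : ℝ, α = min (μ / 2) (min β (1 / 4)) := ⟨_, rfl⟩
  have hα : 0 < α := by rw [hαe]; positivity
  have hαμ : α ≤ μ / 2 := by rw [hαe]; exact min_le_left _ _
  have hαβ : α ≤ β := by rw [hαe]; exact (min_le_right _ _).trans (min_le_left _ _)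
  have hα2 : α < 1 / 2 := by
    have : α ≤ 1 / 4 := by rw [hαe]; exact (min_le_right _ _).trans (min_le_right _ _)
    linarith
  obtain ⟨Λ, γ, y₁, X₁, hpar⟩ := par_exists hν hC hα hα2
  have hγ := hpar.g_pos
  have hL := hpar.L_pos
  refine ⟨γ / 2, by positivity, ?_⟩
  intro T u p h M S K b B hS hM hB hB0 hBi hcond
  rcases le_or_gt T 0 with hT | hT
  · exact ⟨0, fun t ht => absurd (ht.1.trans_lt ht.2) (not_lt.2 hT)⟩
  have hM0 : 0 ≤ M := (abs_nonneg _).trans (hM 0)
  obtain ⟨m, hm, hlat⟩ := bar_lat hpar (T := T) hT hS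
  obtain ⟨m', hm', hlow⟩ := bar_low2 hpar (T := T) hT hS
  obtain ⟨k, hk, hini⟩ := bar_ini hpar (T := T) hT hS
  obtain ⟨U, hU0, hU⟩ := u_bdd h hT
  have hmax := circ_max hν h hM
  obtain ⟨A, hAe⟩ : ∃ A : ℝ, A = M / m + (2 * U / k + |K| * S ^ (β - α) / m') := ⟨_, rfl⟩
  have hS' : 0 ≤ S ^ (β - α) := Real.rpow_nonneg hS.le _
  have hA1 : M / m ≤ A := by
    have : 0 ≤ 2 * U / k + |K| * S ^ (β - α) / m' := by positivity
    rw [hAe]; linarith
  have hA2 : 2 * U / k ≤ A := by
    have h1 : 0 ≤ M / m := by positivity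
    have h2 : 0 ≤ |K| * S ^ (β - α) / m' := by positivity
    rw [hAe]; linarith
  have hA3 : |K| * S ^ (β - α) / m' ≤ A := by
    have h1 : 0 ≤ M / m := by positivity
    have h2 : 0 ≤ 2 * U / k := by positivity
    rw [hAe]; linarith
  have hA0 : 0 ≤ A := le_trans (by positivity) hA1
  have hT0 : (0 : ℝ) ∈ Ico 0 T := ⟨le_rfl, hT⟩
  have key := cmpT hν h hS (A := A) (Φ := Bar T C α Λ γ y₁ X₁)
    (fun t ht σ hσ => bar_pos hpar ht.2 hσ.1) (bar_cont hpar) (bar_axis hpar) hB hB0
    (fun t ht x _ => by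
      have h1 := hmax t ht x
      have h2 := hlat t ht
      have h3 : M ≤ A * m := by rwa [div_le_iff₀ hm] at hA1
      have h4 : A * m ≤ A * Bar T C α Λ γ y₁ X₁ t S := mul_le_mul_of_nonneg_left h2 hA0
      linarith)
    (fun x hx hxS => by
      have h1 := hini (sg x) ⟨hx, hxS⟩
      have h2 : |circ (u 0) x| ≤ 2 * U * √(sg x) := by
        have hx0 : |x 0| ≤ √(sg x) := by
          apply Real.abs_le_sqrt
          unfold sg
          nlinarith [sq_nonneg (x 1)]
        have hx1 : |x 1| ≤ √(sg x) := by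
          apply Real.abs_le_sqrt
          unfold sg
          nlinarith [sq_nonneg (x 0)]
        have hn := hU 0 ⟨le_rfl, le_rfl⟩ x
        have hu0 : |u 0 x 0| ≤ U := (norm_le_pi_norm (u 0 x) 0).trans hn
        have hu1 : |u 0 x 1| ≤ U := (norm_le_pi_norm (u 0 x) 1).trans hn
        have h3 : |circ (u 0) x| ≤ |x 0| * |u 0 x 1| + |x 1| * |u 0 x 0| := by
          unfold circ
          rw [← abs_mul, ← abs_mul]
          exact abs_sub _ _
        have h4 : |x 0| * |u 0 x 1| ≤ √(sg x) * U :=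
          mul_le_mul hx0 hu1 (abs_nonneg _) (Real.sqrt_nonneg _)
        have h5 : |x 1| * |u 0 x 0| ≤ √(sg x) * U :=
          mul_le_mul hx1 hu0 (abs_nonneg _) (Real.sqrt_nonneg _)
        linarith
      have h3 : 2 * U ≤ A * k := by rwa [div_le_iff₀ hk] at hA2
      have hsq := Real.sqrt_nonneg (sg x)
      calc |circ (u 0) x| ≤ 2 * U * √(sg x) := h2
        _ ≤ A * k * √(sg x) := mul_le_mul_of_nonneg_right h3 hsq
        _ = A * (k * √(sg x)) := by ring
        _ ≤ _ := mul_le_mul_of_nonneg_left h1 hA0)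
    (fun t ht x hx hxS hAx htop => by
      have htI : t ∈ Ico 0 T := ⟨ht.1.le, ht.2⟩
      have h1 := hlow t htI (sg x) ⟨hx, hxS.le⟩
      have h2 : K * sg x ^ β < |circ (u t) x| := by
        refine lt_of_le_of_lt ?_ hAx
        have h3 : sg x ^ β ≤ S ^ (β - α) * sg x ^ α := by
          have h4 : sg x ^ β = sg x ^ (β - α) * sg x ^ α := by
            rw [← Real.rpow_add hx]
            congr 1
            ring
          rw [h4]
          have h5 : sg x ^ (β - α) ≤ S ^ (β - α) :=
            Real.rpow_le_rpow hx.le hxS.le (by linarith)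
          exact mul_le_mul_of_nonneg_right h5 (Real.rpow_nonneg hx.le _)
        have h4 : |K| * S ^ (β - α) ≤ A * m' := by rwa [div_le_iff₀ hm'] at hA3
        have h6 : 0 ≤ sg x ^ α := Real.rpow_nonneg hx.le _
        calc K * sg x ^ β ≤ |K| * sg x ^ β :=
              mul_le_mul_of_nonneg_right (le_abs_self K) (Real.rpow_nonneg hx.le _)
          _ ≤ |K| * (S ^ (β - α) * sg x ^ α) := mul_le_mul_of_nonneg_left h3 (abs_nonneg K)
          _ = |K| * S ^ (β - α) * sg x ^ α := by ring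
          _ ≤ A * m' * sg x ^ α := mul_le_mul_of_nonneg_right h4 h6
          _ = A * (m' * sg x ^ α) := by ring
          _ ≤ _ := mul_le_mul_of_nonneg_left h1 hA0
      have h3 : ∀ y, sg y = sg x → |circ (u t) y| ≤ |circ (u t) x| := by
        intro y hy
        have h4 := htop y (by rw [hy]; exact hx) (by rw [hy]; exact hxS.le)
        rw [hy] at h4
        exact le_of_mul_le_mul_right h4 (bar_pos hpar ht.2 hx)
      have h4 := hcond t ht x hx hxS h2 h3
      have hw : -((2 - 2 * α) * ν) - C * √(sg x) / √(T - t) - B t * sg x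
          ≤ x 0 * u t x 0 + x 1 * u t x 1 := by
        have h5 : -((2 - 2 * α) * ν) ≤ -((2 - μ) * ν) := by nlinarith
        linarith
      rcases le_or_gt (√(sg x / (T - t))) y₁ with hy1 | hy1
      · exact inner_maj hpar ht.2 hx hy1 (hB0 t htI) hw
      · exact outer_maj hpar ht.2 hx hy1 (hB0 t htI) hw)
  refine ⟨A * Real.exp b * (Λ + 1), fun t ht x hxS => ?_⟩
  rcases eq_or_lt_of_le (show (0 : ℝ) ≤ sg x by unfold sg; positivity) with hx | hx
  · have h0 : x 0 = 0 ∧ x 1 = 0 := by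
      unfold sg at hx
      constructor <;> nlinarith [sq_nonneg (x 0), sq_nonneg (x 1)]
    have h1 : circ (u t) x = 0 := by
      unfold circ
      rw [h0.1, h0.2]
      ring
    rw [h1, abs_zero]
    have := Real.rpow_nonneg (show (0 : ℝ) ≤ sg x from hx.le) (γ / 2)
    positivity
  · have h1 := key t ht x hx hxS
    have h2 := bar_up hpar ht.2 hx
    have h3 := Real.exp_le_exp.2 (hBi t ht)
    have hb0 : 0 ≤ Bar T C α Λ γ y₁ X₁ t (sg x) := (bar_pos hpar ht.2 hx).le
    calc |circ (u t) x| ≤ A * Real.exp (∫ r in (0 : ℝ)..t, B r) * Bar T C α Λ γ y₁ X₁ t (sg x) := h1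
      _ ≤ A * Real.exp b * Bar T C α Λ γ y₁ X₁ t (sg x) := by gcongr
      _ ≤ A * Real.exp b * ((Λ + 1) * sg x ^ (γ / 2)) := by gcongr
      _ = _ := by ring

end Pool.Agent.Results.MP_09540e_an.TypeIInflow
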